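import Mathlib
import Pool.Agent.Y357.C33.Defs
import Pool.Agent.Y357.C33.Bounds
import Pool.Agent.Y357.C33.Cyclic
import Pool.Agent.Y357.C33.Lower
import Pool.Agent.Y357.C33.Dist

/-!
# The maximum size of a `C_3[3]`-set in `{1, …, n}` is `n ^ (2/3)` with a power saving error term

Main points: `F(n) = n ^ (2/3) + O(n ^ (2/3 - δ))` (construction of the starting file and primes in
short intervals), an explicit upper bound for `C_3[g]`-sets, the same bounds in finite abelian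
groups, and equidistribution of large `C_3[3]`-sets in all arithmetic progressions.
-/

set_option autoImplicit false

namespace Pool.Agent.Results.MP_5edfab_co.PowerSaving

/-- `A ⊆ Γ` is a `C_h[g]`-set: there are no `h`-element set `X` and no `g` distinct elements `k`
(forming the set `K`) with all the translates `X + k` inside `A`. -/
def IsCSet {Γ : Type*} [AddCommGroup Γ] (h g : ℕ) (A : Set Γ) : Prop :=
  ¬ ∃ X K : Finset Γ, X.card = h ∧ K.card = g ∧ ∀ k ∈ K, ∀ x ∈ X, x + k ∈ A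

/-- `F g n`: the largest size of a `C_3[g]`-set in `{1, …, n}`. -/
noncomputable def F (g n : ℕ) : ℕ :=
  sSup {a | ∃ A : Finset ℤ, A ⊆ Finset.Icc 1 (n : ℤ) ∧ IsCSet 3 g (A : Set ℤ) ∧ A.card = a}

theorem result :
    -- (1) `F(n) = n ^ (2/3) + O(n ^ (2/3 - δ))`
    (∃ δ C : ℝ, 0 < δ ∧ ∀ n : ℕ, 1 ≤ n →
      |(F 3 n : ℝ) - (n : ℝ) ^ (2 / 3 : ℝ)| ≤ C * (n : ℝ) ^ (2 / 3 - δ : ℝ)) ∧
    -- (2) an explicit upper bound for all `C_3[g]`-sets of integers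
    (∀ g n : ℕ, 3 ≤ g → 1 ≤ n → (F g n : ℝ) ≤ ((g : ℝ) - 2) ^ (1 / 3 : ℝ) *
      ((n : ℝ) ^ (2 / 3 : ℝ) + 11 * (n : ℝ) ^ (5 / 9 : ℝ))) ∧
    -- (3) an explicit upper bound for `C_3[g]`-sets in all finite abelian groups
    (∀ (Γ : Type) [AddCommGroup Γ] [Fintype Γ] (g : ℕ) (A : Finset Γ), 3 ≤ g →
      IsCSet 3 g (A : Set Γ) → (A.card : ℝ) ≤ ((g : ℝ) - 2) ^ (1 / 3 : ℝ) *
        ((Fintype.card Γ : ℝ) ^ (2 / 3 : ℝ) + 3 * (Fintype.card Γ : ℝ) ^ (1 / 2 : ℝ))) ∧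
    -- (4) which is asymptotically sharp for `g = 3` in the cyclic groups of order
    -- `(p ^ 2 + 1) (p - 1)`
    (∀ p : ℕ, p.Prime → ∃ A : Finset (ZMod ((p ^ 2 + 1) * (p - 1))),
      IsCSet 3 3 (A : Set (ZMod ((p ^ 2 + 1) * (p - 1)))) ∧ p ^ 2 - p ≤ A.card) ∧
    -- (5) large `C_3[3]`-sets are equidistributed in all arithmetic progressions
    (∀ (n : ℕ) (A : Finset ℤ) (ε : ℝ), 1 ≤ n → A ⊆ Finset.Icc 1 (n : ℤ) →
      IsCSet 3 3 (A : Set ℤ) → 0 ≤ ε → (1 - ε) * (n : ℝ) ^ (2 / 3 : ℝ) ≤ A.card →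
      ∀ (s : ℤ) (q k : ℕ), 1 ≤ q → 1 ≤ s + q → s + q * (k : ℤ) ≤ n →
        |((A ∩ (Finset.Icc 1 k).image fun j : ℕ => s + (q : ℤ) * (j : ℤ)).card : ℝ) -
            k * A.card / n| ≤
          100 * (n : ℝ) ^ (2 / 3 : ℝ) * (Real.sqrt ε + (n : ℝ) ^ (-(1 / 18) : ℝ))) := by
  refine ⟨Pool.Agent.Y357.C33.power_saving, fun g n hg hn => Pool.Agent.Y357.C33.F_le hn hg, ?_, ?_,
    ?_⟩
  · intro Γ _ _ g A hg hA
    obtain ⟨t, rfl⟩ : ∃ t, g = t + 2 := ⟨g - 2, by omega⟩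
    have h2 : ((t + 2 : ℕ) : ℝ) - 2 = t := by push_cast; ring
    rw [h2]
    exact Pool.Agent.Y357.C33.group_le (by omega) hA
  · intro p hp
    haveI : Fact p.Prime := ⟨hp⟩
    exact Pool.Agent.Y357.C33.exists_cyclic p
  · intro n A ε hn hA hC hε hcard s q k hq hs1 hs2
    rw [Pool.Agent.Y357.C33.card_inter_prog A s q k hq]
    exact Pool.Agent.Y357.C33.dist_cnt hn hA hC hε hcard s q k hq hs1 hs2

end Pool.Agent.Results.MP_5edfab_co.PowerSaving
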